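import Mathlib
import Pool.Agent.N758.TBG.Angles

/-!
# Rotated copies of the triangular lattice never form a uniformly discrete dense forest

The plane is `ℂ`, angles are elements of `ℝ / 2πℤ`. For no `k`, no angles and no translations is the
union of the sets `e^{iθ_i} Λ + x_i` both uniformly discrete and a dense forest; the question is
about `k = 3`.
-/

set_option autoImplicit false

namespace Pool.Agent.Results.MP_b83ca4_nt.NeverUniformlyDiscrete

open Complex

/-- The lattice `Λ` spanned by `(1, 0)` and `(1/2, √3/2)`. -/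
def Lam : Set ℂ := {z | ∃ m n : ℤ, z = m + n * (⟨1 / 2, √3 / 2⟩ : ℂ)}

/-- `e^{iθ}` for `θ` in `ℝ / 2πℤ`; the rotation by `θ` is the multiplication by it. -/
noncomputable def rot (θ : AddCircle (2 * Real.pi)) : ℂ := (AddCircle.toCircle θ : ℂ)

/-- The union of the sets `r_{θ_i}(Λ) + x_i`. -/
def TBG (k : ℕ) (x : Fin k → ℂ) (θ : Fin k → AddCircle (2 * Real.pi)) : Set ℂ :=
  ⋃ i, {p | ∃ z ∈ Lam, p = rot (θ i) * z + x i}

/-- Dense forests: for every `ε > 0` there is `V > 0` such that every line segment of length `V`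
has a point of `D` at distance less than `ε` from it. -/
def IsDenseForest (D : Set ℂ) : Prop :=
  ∀ ε : ℝ, 0 < ε → ∃ V : ℝ, 0 < V ∧ ∀ a b : ℂ, dist a b = V →
    ∃ y ∈ segment ℝ a b, ∃ p ∈ D, dist y p < ε

/-- Uniformly discrete sets. -/
def IsUniformlyDiscrete (D : Set ℂ) : Prop :=
  ∃ r : ℝ, 0 < r ∧ ∀ p ∈ D, ∀ q ∈ D, p ≠ q → r ≤ dist p q

/-- **Theorem.** For no `k`, no angles and no translations is the union of `k` rotated and
translated copies of `Λ` both uniformly discrete and a dense forest. In particular this is so for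
`k = 3`. -/
theorem result :
    (¬ ∃ (θ : Fin 3 → AddCircle (2 * Real.pi)) (x : Fin 3 → ℂ),
      IsUniformlyDiscrete (TBG 3 x θ) ∧ IsDenseForest (TBG 3 x θ)) ∧
    ∀ (k : ℕ) (θ : Fin k → AddCircle (2 * Real.pi)) (x : Fin k → ℂ),
      ¬ (IsUniformlyDiscrete (TBG k x θ) ∧ IsDenseForest (TBG k x θ)) := by
  have h : ∀ (k : ℕ) (θ : Fin k → AddCircle (2 * Real.pi)) (x : Fin k → ℂ),
      ¬ (IsUniformlyDiscrete (TBG k x θ) ∧ IsDenseForest (TBG k x θ)) :=
    fun k θ x => Pool.Agent.N758.TBG.never (fun i => rot (θ i)) x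
      (fun i => Pool.Agent.N758.TBG.norm_rot (θ i))
  exact ⟨fun ⟨θ, x, h1⟩ => h 3 θ x h1, h⟩

end Pool.Agent.Results.MP_b83ca4_nt.NeverUniformlyDiscrete
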