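import Mathlib
import Pool.Agent.N758.TBG.Angles

/-!
# The smallest number of rotated copies of the triangular lattice forming a dense forest is two

The plane is `ℂ`, angles are elements of `ℝ / 2πℤ`. The union of the sets `e^{iθ_i} Λ + x_i` is a
dense forest if and only if some two of the rotated lattices have no common direction; the
translations play no role. In particular two copies suffice.
-/

set_option autoImplicit false

namespace Pool.Agent.Results.MP_b83ca4_nt.SmallestIsTwo

open Complex

/-- The lattice `Λ` spanned by `(1, 0)` and `(1/2, √3/2)`. -/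
def Lam : Set ℂ := {z | ∃ m n : ℤ, z = m + n * (⟨1 / 2, √3 / 2⟩ : ℂ)}

/-- `e^{iθ}` for `θ` in `ℝ / 2πℤ`; the rotation by `θ` is the multiplication by it. -/
noncomputable def rot (θ : AddCircle (2 * Real.pi)) : ℂ := (AddCircle.toCircle θ : ℂ)

/-- The union of the sets `r_{θ_i}(Λ) + x_i`. -/
def TBG (k : ℕ) (x : Fin k → ℂ) (θ : Fin k → AddCircle (2 * Real.pi)) : Set ℂ :=
  ⋃ i, {p | ∃ z ∈ Lam, p = rot (θ i) * z + x i}

/-- Dense forests: for every `ε > 0` there is `V > 0` such that every line segment of length `V`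
has a point of `D` at distance less than `ε` from it. -/
def IsDenseForest (D : Set ℂ) : Prop :=
  ∀ ε : ℝ, 0 < ε → ∃ V : ℝ, 0 < V ∧ ∀ a b : ℂ, dist a b = V →
    ∃ y ∈ segment ℝ a b, ∃ p ∈ D, dist y p < ε

/-- The vectors `v`, `w` of the plane are parallel (`v × w = 0`). -/
def Parallel (v w : ℂ) : Prop := v.re * w.im = v.im * w.re

/-- `rot θ` is `e^{iθ}`. -/
theorem rot_coe (x : ℝ) : rot (x : AddCircle (2 * Real.pi)) = Complex.exp (x * I) :=
  Pool.Agent.N758.TBG.rot_coe x

theorem tbg_eq (k : ℕ) (x : Fin k → ℂ) (θ : Fin k → AddCircle (2 * Real.pi)) :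
    TBG k x θ = Pool.Agent.N758.TBG.U (fun i => rot (θ i)) x := rfl

theorem noCommon_iff (r s : ℂ) : Pool.Agent.N758.TBG.NoCommon r s ↔
    ∀ v ∈ Lam, ∀ w ∈ Lam, v ≠ 0 → w ≠ 0 → ¬ Parallel (r * v) (s * w) := by
  unfold Pool.Agent.N758.TBG.NoCommon Parallel
  have e : ∀ v w : ℂ, ((starRingEnd ℂ) (s * w) * (r * v)).im =
      (s * w).re * (r * v).im - (s * w).im * (r * v).re := by
    intro v w
    rw [Complex.mul_im, Complex.conj_re, Complex.conj_im]; ring
  constructor
  · intro h v hv w hw hv0 hw0 hp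
    exact h v hv w hw hv0 hw0 (by rw [e]; linarith)
  · intro h v hv w hw hv0 hw0 hp
    rw [e] at hp
    exact h v hv w hw hv0 hw0 (by linarith)

theorem forest_iff (k : ℕ) (x : Fin k → ℂ) (θ : Fin k → AddCircle (2 * Real.pi)) :
    IsDenseForest (TBG k x θ) ↔ ∃ i j, ∀ v ∈ Lam, ∀ w ∈ Lam, v ≠ 0 → w ≠ 0 →
      ¬ Parallel (rot (θ i) * v) (rot (θ j) * w) := by
  rw [tbg_eq]
  have := Pool.Agent.N758.TBG.forest_iff (fun i => rot (θ i)) x
    (fun i => Pool.Agent.N758.TBG.norm_rot (θ i))
  simp only [noCommon_iff] at this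
  exact this

/-- **Theorem.** The smallest `k ≥ 1` for which some union of `k` rotated and translated copies of
`Λ` is a dense forest is `2`. More precisely, for all `k`, all angles and all translations, the
union is a dense forest if and only if there are two of the rotated lattices such that no non-zero
vector of the first one is parallel to a non-zero vector of the second one. -/
theorem result :
    IsLeast {k : ℕ | 1 ≤ k ∧ ∃ (θ : Fin k → AddCircle (2 * Real.pi)) (x : Fin k → ℂ),
      IsDenseForest (TBG k x θ)} 2 ∧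
    ∀ (k : ℕ) (x : Fin k → ℂ) (θ : Fin k → AddCircle (2 * Real.pi)),
      IsDenseForest (TBG k x θ) ↔ ∃ i j, ∀ v ∈ Lam, ∀ w ∈ Lam, v ≠ 0 → w ≠ 0 →
        ¬ Parallel (rot (θ i) * v) (rot (θ j) * w) := by
  refine ⟨⟨⟨by norm_num, ?_⟩, ?_⟩, forest_iff⟩
  · -- existence for `k = 2`
    obtain ⟨δ, hδ⟩ : ∃ δ, δ ∉ Pool.Agent.N758.TBG.Bad := by
      by_contra hcon
      push Not at hcon
      have h1 : (Set.univ : Set (AddCircle (2 * Real.pi))).Countable :=
        (Set.eq_univ_of_forall hcon) ▸ Pool.Agent.N758.TBG.bad_countable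
      have h2 : (Set.Icc (0 : ℝ) 1).Countable := by
        refine Set.MapsTo.countable_of_injOn (f := fun x : ℝ => (x : AddCircle (2 * Real.pi)))
          (t := Set.univ) (fun _ _ => Set.mem_univ _) ?_ h1
        intro a ha b hb hab
        have hpi := Real.pi_gt_three
        have h3 : ((a - b : ℝ) : AddCircle (2 * Real.pi)) = 0 := by
          have : (a : AddCircle (2 * Real.pi)) = (b : AddCircle (2 * Real.pi)) := hab
          rw [AddCircle.coe_sub, this, sub_self]
        rw [AddCircle.coe_eq_zero_iff] at h3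
        obtain ⟨n, hn⟩ := h3
        rw [zsmul_eq_mul] at hn
        have ha1 := ha.1
        have ha2 := ha.2
        have hb1 := hb.1
        have hb2 := hb.2
        have hn0 : n = 0 := by
          by_contra hne
          rcases lt_or_gt_of_ne hne with h | h
          · have : (n : ℝ) ≤ -1 := by exact_mod_cast (by omega : n ≤ -1)
            nlinarith
          · have : (1 : ℝ) ≤ n := by exact_mod_cast (by omega : 1 ≤ n)
            nlinarith
        rw [hn0] at hn
        simp at hn
        linarith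
      exact (Cardinal.Real.Icc_countable_iff.1 h2).not_gt zero_lt_one
    refine ⟨![δ, 0], fun _ => 0, ?_⟩
    rw [forest_iff]
    refine ⟨0, 1, ?_⟩
    rw [← noCommon_iff]
    apply Pool.Agent.N758.TBG.noCommon_of_not_bad
    simpa using hδ
  · rintro k ⟨hk, θ, x, hF⟩
    by_contra hlt
    have hk1 : k = 1 := by omega
    subst hk1
    rw [forest_iff] at hF
    obtain ⟨i, j, h⟩ := hF
    have hij : i = j := Subsingleton.elim _ _
    subst hij
    exact h 1 ⟨1, 0, by simp⟩ 1 ⟨1, 0, by simp⟩ one_ne_zero one_ne_zero (by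
      unfold Parallel; ring)

end Pool.Agent.Results.MP_b83ca4_nt.SmallestIsTwo
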